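import Pool.Agent.TH497.BF.Tw

set_option autoImplicit false
set_option linter.unusedSectionVars false

/-! # Three 2-factors covering a cubic graph of treewidth at most four

A finite graph, parallel edges allowed, has vertex set `V` and edge set `E`; the ends of the edge
`e` are `src e` and `dst e`. -/

namespace Pool.Agent.Results.MP_b7f2ce_co.TreewidthFour

open Finset

/-- tree decomposition of the graph, with bags `bag i` for the nodes `i` of the tree `T` -/
def IsTreeDecomposition {V E ι : Type} (src dst : E → V) (T : SimpleGraph ι)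
    (bag : ι → Finset V) : Prop :=
  T.IsTree ∧ (∀ v, ∃ i, v ∈ bag i) ∧ (∀ e, ∃ i, src e ∈ bag i ∧ dst e ∈ bag i) ∧
    ∀ (i j : ι) (p : T.Walk i j), p.IsPath → ∀ k ∈ p.support, ∀ v, v ∈ bag i → v ∈ bag j →
      v ∈ bag k

/-- the treewidth is at most `k` -/
def TreewidthLE {V E : Type} (src dst : E → V) (k : ℕ) : Prop :=
  ∃ (ι : Type) (_ : Fintype ι) (T : SimpleGraph ι) (bag : ι → Finset V),
    IsTreeDecomposition src dst T bag ∧ ∀ i, (bag i).card ≤ k + 1

/-- the edges at the vertex `v` -/
def star {V E : Type} [DecidableEq V] [Fintype E] (src dst : E → V) (v : V) : Finset E :=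
  univ.filter fun e => src e = v ∨ dst e = v

/-- a choice from the classes of one partition which meets all classes of the other -/
theorem pick : ∀ w : Fin 3 → Bool → Fin 3,
    (∀ k, (univ.filter fun p : Fin 3 × Bool => w p.1 p.2 = k).card = 2) →
    ∃ c : Fin 3 → Bool, ∀ i j, w i (c i) = w j (c j) → i = j := by
  decide +kernel

/-- two partitions of six elements into pairs have a common transversal -/
theorem transversal {u w : Fin 6 → Fin 3} (hu : ∀ j, (univ.filter fun k => u k = j).card = 2)
    (hw : ∀ j, (univ.filter fun k => w k = j).card = 2) :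
    ∃ σ : Fin 3 → Fin 6, (∀ i, u (σ i) = i) ∧ Function.Injective fun i => w (σ i) := by
  have h1 : ∀ j, ∃ a b : Fin 6, a ≠ b ∧ u a = j ∧ u b = j := by
    intro j
    obtain ⟨a, b, hab, h⟩ := card_eq_two.mp (hu j)
    refine ⟨a, b, hab, ?_, ?_⟩
    · have : a ∈ univ.filter fun k => u k = j := by rw [h]; simp
      exact (mem_filter.mp this).2
    · have : b ∈ univ.filter fun k => u k = j := by rw [h]; simp
      exact (mem_filter.mp this).2
  choose α β h2 h3 h4 using h1
  have h5 : ∀ (j : Fin 3) (b : Bool), u (if b then β j else α j) = j := by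
    intro j b
    cases b
    · exact h3 j
    · exact h4 j
  have hinj : Function.Injective fun p : Fin 3 × Bool => if p.2 then β p.1 else α p.1 := by
    rintro ⟨i, b⟩ ⟨j, c⟩ h
    have h6 : i = j := by
      rw [← h5 i b, ← h5 j c]; exact congrArg u h
    subst h6
    have h7 : (if b then β i else α i) = (if c then β i else α i) := h
    cases b <;> cases c
    · rfl
    · exact absurd h7 (h2 i)
    · exact absurd h7.symm (h2 i)
    · rfl
  have hbij : Function.Bijective fun p : Fin 3 × Bool => if p.2 then β p.1 else α p.1 := by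
    rw [Fintype.bijective_iff_injective_and_card]
    exact ⟨hinj, by simp⟩
  obtain ⟨c, hc⟩ := pick (fun j b => w (if b then β j else α j)) (by
    intro k
    rw [← hw k]
    refine card_bij (fun p _ => if p.2 then β p.1 else α p.1) ?_ ?_ ?_
    · intro p hp
      rw [mem_filter] at hp ⊢
      exact ⟨mem_univ _, hp.2⟩
    · intro p _ q _ h
      exact hinj h
    · intro x hx
      obtain ⟨p, hp⟩ := hbij.2 x
      refine ⟨p, ?_, hp⟩
      rw [mem_filter] at hx ⊢
      refine ⟨mem_univ _, ?_⟩
      have h8 : (if p.2 then β p.1 else α p.1) = x := hp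
      rw [h8]
      exact hx.2)
  exact ⟨fun j => if c j then β j else α j, fun i => h5 i (c i), fun i j h => hc i j h⟩

section Graph

variable {V E : Type} [Fintype V] [DecidableEq V] [Fintype E] [DecidableEq E] {src dst : E → V}

open TH497.BF.Tw

theorem dg_card (hl : ∀ e, src e ≠ dst e) (F : Finset E) (v : V) :
    dg src dst F v = (F.filter fun e => e ∈ star src dst v).card := by
  unfold dg
  rw [card_filter]
  refine sum_congr rfl fun e _ => ?_
  have h := hl e
  simp only [star, mem_filter, mem_univ, true_and]
  by_cases h1 : src e = v <;> by_cases h2 : dst e = v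
  · exact absurd (h1.trans h2.symm) h
  · simp [h1, h2]
  · simp [h1, h2]
  · simp [h1, h2]

theorem deg3 (hl : ∀ e, src e ≠ dst e) (hc : ∀ v, (star src dst v).card = 3) (v : V) :
    dg src dst univ v = 3 := by
  rw [dg_card hl, ← hc v]
  congr 1
  ext e
  simp

/-- the edges at a vertex and the edge which each matching uses there -/
theorem at_vertex (hl : ∀ e, src e ≠ dst e) (hc : ∀ v, (star src dst v).card = 3)
    {C : Fin 6 → Finset E} (h1 : ∀ i v, Even (dg src dst (C i) v))
    (h2 : ∀ e, (univ.filter fun i => e ∈ C i).card = 4) (v : V) :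
    ∃ (a : Fin 3 → E) (u : Fin 6 → Fin 3), Function.Injective a ∧
      star src dst v = univ.image a ∧ (∀ k j, a j ∈ C k ↔ u k ≠ j) ∧
      ∀ j, (univ.filter fun k => u k = j).card = 2 := by
  obtain ⟨h4, h5⟩ := compl6 h1 h2 (deg3 hl hc)
  obtain ⟨x, y, z, hxy, hxz, hyz, hs⟩ := card_eq_three.mp (hc v)
  have ha : Function.Injective ![x, y, z] := by
    intro i j
    fin_cases i <;> fin_cases j <;> simp [hxy, hxz, hyz, hxy.symm, hxz.symm, hyz.symm]
  have hst : star src dst v = univ.image ![x, y, z] := by
    rw [hs]
    ext e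
    simp only [mem_insert, mem_singleton, mem_image, mem_univ, true_and, Fin.exists_fin_succ,
      Matrix.cons_val_zero, Matrix.cons_val_succ, IsEmpty.exists_iff, or_false]
    constructor
    · rintro (rfl | rfl | rfl)
      · exact Or.inl rfl
      · exact Or.inr (Or.inl rfl)
      · exact Or.inr (Or.inr rfl)
    · rintro (rfl | rfl | rfl)
      · exact Or.inl rfl
      · exact Or.inr (Or.inl rfl)
      · exact Or.inr (Or.inr rfl)
  have h6 : ∀ k, ∃ j : Fin 3, ∀ j', ![x, y, z] j' ∈ C k ↔ j ≠ j' := by
    intro k
    have h7 := h4 k v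
    rw [dg_card hl] at h7
    obtain ⟨e, he⟩ := card_eq_one.mp h7
    have h8 : e ∈ (univ \ C k).filter fun e => e ∈ star src dst v := by rw [he]; simp
    rw [mem_filter, mem_sdiff] at h8
    have h9 : e ∈ univ.image ![x, y, z] := by rw [← hst]; exact h8.2
    obtain ⟨j, _, hj⟩ := mem_image.mp h9
    refine ⟨j, fun j' => ⟨fun h10 h11 => ?_, fun h10 => ?_⟩⟩
    · rw [← h11, hj] at h10
      exact h8.1.2 h10
    · by_contra h11
      have h12 : ![x, y, z] j' ∈ (univ \ C k).filter fun e => e ∈ star src dst v := by
        rw [mem_filter, mem_sdiff]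
        refine ⟨⟨mem_univ _, h11⟩, ?_⟩
        rw [hst]
        exact mem_image_of_mem _ (mem_univ _)
      rw [he, mem_singleton, ← hj] at h12
      exact h10 (ha h12).symm
  choose u hu using h6
  refine ⟨![x, y, z], u, ha, hst, hu, fun j => ?_⟩
  rw [← h5 (![x, y, z] j)]
  congr 1
  ext k
  simp only [mem_filter, mem_univ, true_and, mem_sdiff]
  rw [hu k j, not_not]

/-- the matchings with different edges at a vertex leave every edge there in exactly two -/
theorem two_of {w : Fin 3 → Fin 3} (hw : Function.Injective w) (j : Fin 3) :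
    (univ.filter fun i => w i ≠ j).card = 2 := by
  have hb : Function.Bijective w := Finite.injective_iff_bijective.mp hw
  have h1 : (univ.filter fun i => w i = j).card = 1 := by
    obtain ⟨i, hi⟩ := hb.2 j
    rw [card_eq_one]
    refine ⟨i, ?_⟩
    ext k
    simp only [mem_filter, mem_univ, true_and, mem_singleton]
    exact ⟨fun h => hw (h.trans hi.symm), fun h => h ▸ hi⟩
  have h2 := card_filter_add_card_filter_not (s := (univ : Finset (Fin 3))) (fun i => w i = j)
  rw [h1, card_univ, Fintype.card_fin] at h2
  have h3 : (univ.filter fun i => w i ≠ j) = univ.filter fun i => ¬ w i = j := rfl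
  rw [h3]
  omega

/-- **Theorem.** Let `G` be a bridgeless cubic graph of treewidth at most four and let `x` and `y`
be vertices. Then `G` has three 2-factors which cover all edges such that every edge at `x` or `y`
is in exactly two of them. -/
theorem result (V E : Type) [Fintype V] [DecidableEq V] [Fintype E] [DecidableEq E]
    (src dst : E → V) (hl : ∀ e, src e ≠ dst e) (hc : ∀ v, (star src dst v).card = 3)
    (hb : ∀ S : Finset V, (univ.filter fun e =>
      (src e ∈ S ∧ dst e ∉ S) ∨ (src e ∉ S ∧ dst e ∈ S)).card ≠ 1)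
    (hT : TreewidthLE src dst 4) (x y : V) :
    ∃ C : Fin 3 → Finset E, (∀ i v, (C i ∩ star src dst v).card = 2) ∧ (∀ e, ∃ i, e ∈ C i) ∧
      ∀ e ∈ star src dst x ∪ star src dst y, (univ.filter fun i => e ∈ C i).card = 2 := by
  -- six even subgraphs
  have hB : TH676.A.Br src dst ∅ ∅ := by
    intro Y _ hY
    rw [sdiff_empty] at hY
    apply hb Y
    rw [← hY]
    congr 1
    ext e
    rw [TH676.A.mem_crs, mem_filter]
    simp only [mem_univ, true_and]
    tauto
  obtain ⟨ι, _, T, bag, ⟨t1, _, t2, t3⟩, t4⟩ := hT
  have hTD : TH499.TF.HasTD 5 src dst := TH499.TF.HasTD.of_tree t1 t3 t2 t4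
  obtain ⟨C, hC, h4⟩ := TH497.BF.bf4 hTD hB
  obtain ⟨a, u, ha, hst, hu, hu2⟩ := at_vertex hl hc hC h4 x
  obtain ⟨b, w, hb', hst', hw, hw2⟩ := at_vertex hl hc hC h4 y
  obtain ⟨σ, hσ, hσw⟩ := transversal hu2 hw2
  have hσi : Function.Injective σ := fun i j h => by
    rw [← hσ i, ← hσ j, h]
  refine ⟨fun i => C (σ i), fun i v => ?_, fun e => ?_, fun e he => ?_⟩
  · -- two edges at every vertex
    have h5 := (compl6 hC h4 (deg3 hl hc)).1 (σ i) v
    rw [dg_card hl] at h5
    have h6 : (univ \ C (σ i)).filter (fun e => e ∈ star src dst v) =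
        star src dst v \ (C (σ i) ∩ star src dst v) := by
      ext e
      simp only [mem_filter, mem_sdiff, mem_univ, true_and, mem_inter]
      tauto
    rw [h6, card_sdiff_of_subset inter_subset_right, hc v] at h5
    change (C (σ i) ∩ star src dst v).card = 2
    omega
  · -- any three of the six cover
    by_contra hne
    push Not at hne
    have h5 : (univ.filter fun k => e ∈ C k).card + (univ.image σ).card ≤ 6 := by
      rw [← card_union_of_disjoint]
      · exact (card_le_univ _).trans (by simp)
      · rw [disjoint_left]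
        intro k h6 h7
        obtain ⟨i, _, rfl⟩ := mem_image.mp h7
        exact hne i (mem_filter.mp h6).2
    rw [h4 e, card_image_of_injective _ hσi, card_univ, Fintype.card_fin] at h5
    omega
  · rw [mem_union] at he
    rcases he with he | he
    · rw [hst] at he
      obtain ⟨j, _, rfl⟩ := mem_image.mp he
      have h5 : (univ.filter fun i => a j ∈ C (σ i)) = univ.filter fun i : Fin 3 => i ≠ j := by
        ext i
        simp only [mem_filter, mem_univ, true_and]
        rw [hu, hσ]
      rw [h5]
      exact two_of (w := id) Function.injective_id j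
    · rw [hst'] at he
      obtain ⟨j, _, rfl⟩ := mem_image.mp he
      have h5 : (univ.filter fun i => b j ∈ C (σ i)) =
          univ.filter fun i : Fin 3 => w (σ i) ≠ j := by
        ext i
        simp only [mem_filter, mem_univ, true_and]
        rw [hw]
      rw [h5]
      exact two_of hσw j

end Graph

end Pool.Agent.Results.MP_b7f2ce_co.TreewidthFour
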